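import Pool.Agent.Helper72.TJ.Mat

set_option autoImplicit false

open Complex Matrix

namespace Pool.Agent.Helper72.TJ

/-- The direction `b`. -/
def b0 : Fin 12 → ℝ := ![0, 0, 0, 0, 0, 0, 0, 0, 0, 1, 1, 0]

/-- The direction of `a`. -/
def a0 : Fin 12 → ℝ := ![0, 0, 0, 0, 0, 1, 0, 0, 0, 0, 0, 1]

noncomputable def bm : Matrix (Fin 10) (Fin 10) ℂ := km (fun k => (b0 k : ℂ))

noncomputable def pm : Matrix (Fin 10) (Fin 10) ℂ := km (fun k => (a0 k : ℂ))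

def bv (z : Fin 10 → ℂ) : Fin 10 → ℂ := ![z 6, z 7, z 8, z 3, z 4, z 5, z 0, z 1, z 2, z 9]

noncomputable def pv (z : Fin 10 → ℂ) : Fin 10 → ℂ :=
  ![I * z 5, 0, I * z 3, -(I * z 2) + z 6, z 7, -(I * z 0) + z 8, z 3, z 4, z 5, 0]

noncomputable def nv (z : Fin 10 → ℂ) : Fin 10 → ℂ :=
  ![z 3, z 4, z 5, -(I * z 2) + z 6, z 7, -(I * z 0) + z 8, I * z 5, 0, I * z 3, 0]

lemma bm_mulVec (z : Fin 10 → ℂ) : bm *ᵥ z = bv z := by
  rw [bm, km_mulVec]
  ext i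
  fin_cases i <;> simp [kv, bv, b0]

lemma pm_mulVec (z : Fin 10 → ℂ) : pm *ᵥ z = pv z := by
  rw [pm, km_mulVec]
  ext i
  fin_cases i <;> simp [kv, pv, a0]

/-- The nilpotent matrix `B⁻¹ P`. -/
noncomputable def nm : Matrix (Fin 10) (Fin 10) ℂ := bm * pm

lemma nm_mulVec (z : Fin 10 → ℂ) : nm *ᵥ z = nv z := by
  rw [nm, ← Matrix.mulVec_mulVec, pm_mulVec, bm_mulVec]
  ext i
  fin_cases i <;> simp [bv, pv, nv]

lemma bm_mul_bm : bm * bm = 1 := by
  apply mat_ext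
  intro z
  rw [← Matrix.mulVec_mulVec, bm_mulVec, bm_mulVec, Matrix.one_mulVec]
  ext i
  fin_cases i <;> simp [bv]

lemma bm_mul_nm : bm * nm = pm := by
  rw [nm, ← Matrix.mul_assoc, bm_mul_bm, Matrix.one_mul]

lemma nm_cube : nm * nm * nm = 0 := by
  apply mat_ext
  intro z
  rw [← Matrix.mulVec_mulVec, ← Matrix.mulVec_mulVec, nm_mulVec, nm_mulVec, nm_mulVec,
    Matrix.zero_mulVec]
  ext i
  fin_cases i <;> simp [nv]

lemma pm_hermitian : pmᴴ = pm := km_hermitian a0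

/-- The solution `X`. -/
noncomputable def xm (t : ℂ) : Matrix (Fin 10) (Fin 10) ℂ := -(t • nm + (2 * t ^ 2) • (nm * nm))

/-- The inverse of `A`. -/
noncomputable def ai (t : ℂ) : Matrix (Fin 10) (Fin 10) ℂ :=
  (1 + (2 * t) • nm + (4 * t ^ 2) • (nm * nm)) * bm

lemma aMat_mul_ai (t : ℂ) : (bm - (2 * t) • pm) * ai t = 1 := by
  have h : bm - (2 * t) • pm = bm * (1 - (2 * t) • nm) := by
    rw [Matrix.mul_sub, Matrix.mul_one, Matrix.mul_smul, bm_mul_nm]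
  rw [h, ai]
  have h2 : (1 - (2 * t) • nm) * (1 + (2 * t) • nm + (4 * t ^ 2) • (nm * nm)) = 1 := by
    have e : (1 - (2 * t) • nm) * (1 + (2 * t) • nm + (4 * t ^ 2) • (nm * nm)) =
        1 - (8 * t ^ 3) • (nm * nm * nm) := by
      simp only [sub_mul, mul_add, one_mul, mul_one, smul_mul_assoc, mul_smul_comm, smul_smul,
        ← mul_assoc]
      module
    rw [e, nm_cube, smul_zero, sub_zero]
  calc bm * (1 - (2 * t) • nm) * ((1 + (2 * t) • nm + (4 * t ^ 2) • (nm * nm)) * bm)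
      = bm * ((1 - (2 * t) • nm) * (1 + (2 * t) • nm + (4 * t ^ 2) • (nm * nm))) * bm := by
        simp only [mul_assoc]
    _ = 1 := by rw [h2, mul_one, bm_mul_bm]

lemma xm_sq (t : ℂ) : xm t * xm t = (t ^ 2) • (nm * nm) := by
  have e : xm t * xm t = (t ^ 2) • (nm * nm) + (4 * t ^ 3) • (nm * nm * nm) +
      (4 * t ^ 4) • (nm * nm * nm * nm) := by
    rw [xm]
    simp only [neg_mul_neg, mul_add, add_mul, smul_mul_assoc, mul_smul_comm, smul_smul, ← mul_assoc]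
    module
  rw [e, nm_cube]
  simp

lemma xm_cube (t : ℂ) : xm t * xm t * xm t = 0 := by
  rw [xm_sq, xm]
  have e : (t ^ 2) • (nm * nm) * -(t • nm + (2 * t ^ 2) • (nm * nm)) =
      -((t ^ 3) • (nm * nm * nm) + (2 * t ^ 4) • (nm * nm * nm * nm)) := by
    simp only [mul_neg, mul_add, smul_mul_assoc, mul_smul_comm, smul_smul, ← mul_assoc]
    module
  rw [e, nm_cube]
  simp

lemma xm_eq (t : ℂ) : (t • pm) * (xm t * xm t) + (bm - (2 * t) • pm) * xm t + t • pm = 0 := by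
  rw [xm_sq]
  have h : bm - (2 * t) • pm = bm * (1 - (2 * t) • nm) := by
    rw [Matrix.mul_sub, Matrix.mul_one, Matrix.mul_smul, bm_mul_nm]
  rw [h, xm, ← bm_mul_nm]
  have e : (t • (bm * nm)) * ((t ^ 2) • (nm * nm)) + bm * (1 - (2 * t) • nm) *
      -(t • nm + (2 * t ^ 2) • (nm * nm)) + t • (bm * nm) =
      (5 * t ^ 3) • (bm * (nm * nm * nm)) := by
    simp only [mul_neg, mul_add, mul_sub, sub_mul, mul_one, smul_mul_assoc, mul_smul_comm,
      smul_smul, ← mul_assoc]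
    module
  rw [e, nm_cube]
  simp

end Pool.Agent.Helper72.TJ
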