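import Mathlib

set_option autoImplicit false

open Complex Matrix Filter Topology

namespace Pool.Agent.Helper72.TJ

lemma flat_of_cubic {E F : Type*} [NormedAddCommGroup E] [NormedSpace ℂ E] [NormedAddCommGroup F]
    [NormedSpace ℂ F] {f : E → F} (hf : ContDiff ℂ ⊤ f)
    (h : ∀ p, f ((2 : ℂ) • p) = (8 : ℂ) • f p) (k : ℕ) (hk : k ≤ 2) :
    iteratedFDeriv ℂ k f 0 = 0 := by
  have h1 : f ∘ ⇑((2 : ℂ) • ContinuousLinearMap.id ℂ E) = (8 : ℂ) • f := by
    ext p
    simp [h]
  have h2 := ((2 : ℂ) • ContinuousLinearMap.id ℂ E).iteratedFDeriv_comp_right hf 0 (i := k)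
    (by exact_mod_cast le_top)
  rw [h1, iteratedFDeriv_const_smul_apply (hf.of_le (by exact_mod_cast le_top)).contDiffAt] at h2
  ext m
  have h3 := congrArg (fun T => T m) h2
  simp only [_root_.smul_apply, ContinuousMultilinearMap.compContinuousLinearMap_apply,
    ContinuousLinearMap.id_apply, smul_zero,
    ContinuousMultilinearMap.map_smul_univ, Finset.prod_const, Finset.card_univ,
    Fintype.card_fin] at h3
  have h4 : ((8 : ℂ) - 2 ^ k) • (iteratedFDeriv ℂ k f 0) m = 0 := by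
    rw [sub_smul, h3, sub_self]
  rw [smul_eq_zero] at h4
  rcases h4 with h4 | h4
  · exfalso
    interval_cases k <;> norm_num at h4
  · simpa using h4

lemma twoJet_add {E : Type*} [NormedAddCommGroup E] [NormedSpace ℂ E] {f : E → E}
    (hf : ContDiff ℂ ⊤ f)
    (h : ∀ p, f ((2 : ℂ) • p) = (8 : ℂ) • f p) (k : ℕ) (hk : k ≤ 2) :
    iteratedFDeriv ℂ k (id + f) 0 = iteratedFDeriv ℂ k (id : E → E) 0 := by
  rw [iteratedFDeriv_add_apply contDiff_id.contDiffAt
    (hf.of_le (by exact_mod_cast le_top)).contDiffAt, flat_of_cubic hf h k hk, add_zero]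

end Pool.Agent.Helper72.TJ
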