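import Pool.Agent.Helper72.TJ.Tang
import Pool.Agent.Helper72.TJ.Flat

set_option autoImplicit false

open Complex Matrix Filter Topology

namespace Pool.Agent.Helper72.TJ

lemma differentiable_fmap : Differentiable ℂ fmap := by
  have h : Differentiable ℂ pert := contDiff_pert.differentiable (by simp)
  exact differentiable_id.add h

lemma differentiable_gmap : Differentiable ℂ gmap := by
  have h : Differentiable ℂ pert := contDiff_pert.differentiable (by simp)
  exact differentiable_id.sub h

lemma fmap_zero : fmap 0 = 0 := by simp [fmap, pert_zero]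

lemma gmap_zero : gmap 0 = 0 := by simp [gmap, pert_zero]

lemma fmap_twoJet (k : ℕ) (hk : k ≤ 2) :
    iteratedFDeriv ℂ k fmap 0 = iteratedFDeriv ℂ k (id : Sp → Sp) 0 := by
  have h := twoJet_add contDiff_pert (fun p => by rw [pert_smul]; norm_num) k hk
  exact h

/-- A curve of test points. -/
def tp (τ : ℂ) : Sp := (0, ![τ, τ, τ, 0, 0, 0, 0, 0, 0, 0, 0, 0])

lemma tp_zero : tp 0 = 0 := by
  ext i
  · rfl
  · fin_cases i <;> simp [tp]

lemma continuous_tp : Continuous tp := by
  unfold tp
  refine continuous_const.prodMk ?_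
  refine continuous_pi fun i => ?_
  fin_cases i <;> simp <;> first | exact continuous_id | exact continuous_const

lemma pert_tp (τ : ℂ) : (pert (tp τ)).2 10 = τ ^ 3 := by
  simp [pert, tp, det3, wm]
  ring

lemma fmap_ne : ¬ fmap =ᶠ[𝓝 0] id := by
  intro h
  have h1 : Tendsto tp (𝓝[≠] 0) (𝓝 0) := by
    have := continuous_tp.tendsto 0
    rw [tp_zero] at this
    exact this.mono_left nhdsWithin_le_nhds
  have h2 := h1.eventually h
  have h3 : ∀ᶠ τ in 𝓝[≠] (0 : ℂ), τ ≠ 0 := eventually_mem_nhdsWithin
  obtain ⟨τ, h4, h5⟩ := (h2.and h3).exists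
  have h6 : pert (tp τ) = 0 := by
    have : tp τ + pert (tp τ) = tp τ := h4
    simpa using this
  have h7 := pert_tp τ
  rw [h6] at h7
  exact h5 (pow_eq_zero_iff (three_ne_zero) |>.1 h7.symm)

end Pool.Agent.Helper72.TJ
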