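import Pool.Agent.Helper72.TJ.Mat

set_option autoImplicit false

open Complex Matrix Filter Topology

namespace Pool.Agent.Helper72.TJ

/-- The source space. -/
abbrev Sp := (Fin 10 → ℂ) × (Fin 12 → ℂ)

/-- The matrix `W` as a function of `w`. -/
noncomputable def wm (w : Fin 12 → ℂ) : Fin 3 → Fin 3 → ℂ :=
  ![![w 0, (w 3 - I * w 4) / 2, (w 5 - I * w 6) / 2],
    ![(w 3 + I * w 4) / 2, w 1, (w 7 - I * w 8) / 2],
    ![(w 5 + I * w 6) / 2, (w 7 + I * w 8) / 2, w 2]]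

/-- The adjugate applied to a vector. -/
def adjv (m : Fin 3 → Fin 3 → ℂ) (y : Fin 3 → ℂ) : Fin 3 → ℂ :=
  ![(m 1 1 * m 2 2 - m 1 2 * m 2 1) * y 0 + (m 0 2 * m 2 1 - m 0 1 * m 2 2) * y 1 +
      (m 0 1 * m 1 2 - m 0 2 * m 1 1) * y 2,
    (m 1 2 * m 2 0 - m 1 0 * m 2 2) * y 0 + (m 0 0 * m 2 2 - m 0 2 * m 2 0) * y 1 +
      (m 0 2 * m 1 0 - m 0 0 * m 1 2) * y 2,
    (m 1 0 * m 2 1 - m 1 1 * m 2 0) * y 0 + (m 0 1 * m 2 0 - m 0 0 * m 2 1) * y 1 +
      (m 0 0 * m 1 1 - m 0 1 * m 1 0) * y 2]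

/-- The determinant. -/
def det3 (m : Fin 3 → Fin 3 → ℂ) : ℂ :=
  m 0 0 * (m 1 1 * m 2 2 - m 1 2 * m 2 1) + m 0 1 * (m 1 2 * m 2 0 - m 1 0 * m 2 2) +
    m 0 2 * (m 1 0 * m 2 1 - m 1 1 * m 2 0)

/-- The perturbation of the identity. -/
noncomputable def pert (p : Sp) : Sp :=
  (![0, 0, 0, 0, 0, 0, I * adjv (wm p.2) ![p.1 3, p.1 4, p.1 5] 0,
      I * adjv (wm p.2) ![p.1 3, p.1 4, p.1 5] 1, I * adjv (wm p.2) ![p.1 3, p.1 4, p.1 5] 2, 0],
    ![0, 0, 0, 0, 0, 0, 0, 0, 0, 0, det3 (wm p.2), 0])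

lemma pert_congr {p q : Sp} (h1 : ∀ i, i ≠ 6 → i ≠ 7 → i ≠ 8 → p.1 i = q.1 i)
    (h2 : ∀ i, i ≠ 10 → p.2 i = q.2 i) : pert p = pert q := by
  have e0 := h2 0 (by decide)
  have e1 := h2 1 (by decide)
  have e2 := h2 2 (by decide)
  have e3 := h2 3 (by decide)
  have e4 := h2 4 (by decide)
  have e5 := h2 5 (by decide)
  have e6 := h2 6 (by decide)
  have e7 := h2 7 (by decide)
  have e8 := h2 8 (by decide)
  have f3 := h1 3 (by decide) (by decide) (by decide)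
  have f4 := h1 4 (by decide) (by decide) (by decide)
  have f5 := h1 5 (by decide) (by decide) (by decide)
  have hw : wm p.2 = wm q.2 := by
    unfold wm
    rw [e0, e1, e2, e3, e4, e5, e6, e7, e8]
  unfold pert
  rw [hw, f3, f4, f5]

lemma pert_fst (p : Sp) (i : Fin 10) (h6 : i ≠ 6) (h7 : i ≠ 7) (h8 : i ≠ 8) :
    (pert p).1 i = 0 := by
  fin_cases i <;> first | rfl | (exact absurd rfl h6) | (exact absurd rfl h7) |
    (exact absurd rfl h8)

lemma pert_snd (p : Sp) (i : Fin 12) (h : i ≠ 10) : (pert p).2 i = 0 := by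
  fin_cases i <;> first | rfl | (exact absurd rfl h)

/-- The automorphism. -/
noncomputable def fmap (p : Sp) : Sp := p + pert p

/-- Its inverse. -/
noncomputable def gmap (p : Sp) : Sp := p - pert p

lemma pert_fmap (p : Sp) : pert (fmap p) = pert p := by
  apply pert_congr
  · intro i h6 h7 h8
    simp [fmap, pert_fst p i h6 h7 h8]
  · intro i h
    simp [fmap, pert_snd p i h]

lemma pert_gmap (p : Sp) : pert (gmap p) = pert p := by
  apply pert_congr
  · intro i h6 h7 h8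
    simp [gmap, pert_fst p i h6 h7 h8]
  · intro i h
    simp [gmap, pert_snd p i h]

lemma gmap_fmap (p : Sp) : gmap (fmap p) = p := by
  rw [gmap, pert_fmap, fmap, add_sub_cancel_right]

lemma fmap_gmap (p : Sp) : fmap (gmap p) = p := by
  rw [fmap, pert_gmap, gmap, sub_add_cancel]

lemma pert_smul (a : ℂ) (p : Sp) : pert (a • p) = a ^ 3 • pert p := by
  ext i
  · fin_cases i <;> simp [pert, adjv, wm] <;> ring
  · fin_cases i <;> simp [pert, det3, wm] <;> ring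

lemma pert_zero : pert 0 = 0 := by
  have h := pert_smul 0 0
  simpa using h

lemma contDiff_pert : ContDiff ℂ ⊤ pert := by
  unfold pert
  apply ContDiff.prodMk
  · rw [contDiff_pi]
    intro i
    fin_cases i <;> simp [adjv, wm] <;> fun_prop
  · rw [contDiff_pi]
    intro i
    fin_cases i <;> simp [det3, wm] <;> fun_prop

end Pool.Agent.Helper72.TJ
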