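import Mathlib

set_option autoImplicit false

open Complex Matrix

namespace Pool.Agent.Helper72.TJ

/-- The value at `z` of the form with parameters `c`, as a vector. -/
noncomputable def kv (c : Fin 12 → ℂ) (z : Fin 10 → ℂ) : Fin 10 → ℂ :=
  ![I * (c 0 * z 3 + (c 3 - I * c 4) * z 4 + (c 5 - I * c 6) * z 5) + c 10 * z 6,
    I * ((c 3 + I * c 4) * z 3 + c 1 * z 4 + (c 7 - I * c 8) * z 5) + c 10 * z 7,
    I * ((c 5 + I * c 6) * z 3 + (c 7 + I * c 8) * z 4 + c 2 * z 5) + c 10 * z 8,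
    -(I * (c 0 * z 0 + (c 3 - I * c 4) * z 1 + (c 5 - I * c 6) * z 2)) + c 9 * z 3 + c 11 * z 6,
    -(I * ((c 3 + I * c 4) * z 0 + c 1 * z 1 + (c 7 - I * c 8) * z 2)) + c 9 * z 4 + c 11 * z 7,
    -(I * ((c 5 + I * c 6) * z 0 + (c 7 + I * c 8) * z 1 + c 2 * z 2)) + c 9 * z 5 + c 11 * z 8,
    c 10 * z 0 + c 11 * z 3,
    c 10 * z 1 + c 11 * z 4,
    c 10 * z 2 + c 11 * z 5,
    c 9 * z 9]

/-- `kv c` as a linear map. -/
noncomputable def klin (c : Fin 12 → ℂ) : (Fin 10 → ℂ) →ₗ[ℂ] (Fin 10 → ℂ) where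
  toFun := kv c
  map_add' z z' := by
    ext i
    fin_cases i <;> simp [kv] <;> ring
  map_smul' a z := by
    ext i
    fin_cases i <;> simp [kv] <;> ring

/-- The matrix with parameters `c`. -/
noncomputable def km (c : Fin 12 → ℂ) : Matrix (Fin 10) (Fin 10) ℂ := LinearMap.toMatrix' (klin c)

lemma km_mulVec (c : Fin 12 → ℂ) (z : Fin 10 → ℂ) : km c *ᵥ z = kv c z := by
  unfold km
  rw [LinearMap.toMatrix'_mulVec]
  rfl

lemma mat_ext {n : ℕ} {A B : Matrix (Fin n) (Fin n) ℂ} (h : ∀ v, A *ᵥ v = B *ᵥ v) : A = B :=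
  Matrix.toLin'.injective (LinearMap.ext h)

lemma km_add (c c' : Fin 12 → ℂ) : km (c + c') = km c + km c' := by
  apply mat_ext
  intro v
  rw [Matrix.add_mulVec, km_mulVec, km_mulVec, km_mulVec]
  ext i
  fin_cases i <;> simp [kv] <;> ring

lemma km_smul (a : ℂ) (c : Fin 12 → ℂ) : km (a • c) = a • km c := by
  apply mat_ext
  intro v
  rw [Matrix.smul_mulVec, km_mulVec, km_mulVec]
  ext i
  fin_cases i <;> simp [kv] <;> ring

/-- `km` as a linear map. -/
noncomputable def kmLin : (Fin 12 → ℂ) →ₗ[ℂ] Matrix (Fin 10) (Fin 10) ℂ where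
  toFun := km
  map_add' := km_add
  map_smul' := km_smul

/-- The twelve Hermitian matrices. -/
noncomputable def am (j : Fin 12) : Matrix (Fin 10) (Fin 10) ℂ := km (Pi.single j 1)

lemma sum_am (c : Fin 12 → ℂ) : ∑ j, c j • am j = km c := by
  have h1 : c = ∑ j, c j • (Pi.single j 1 : Fin 12 → ℂ) := by
    ext i
    rw [Finset.sum_apply]
    simp [Pi.single_apply]
  have h2 : km c = kmLin c := rfl
  have h3 : ∀ j, am j = kmLin (Pi.single j 1) := fun _ => rfl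
  rw [h2]
  conv_rhs => rw [h1]
  rw [map_sum]
  refine Finset.sum_congr rfl fun j _ => ?_
  rw [map_smul, h3]

lemma dot10 (v w : Fin 10 → ℂ) : v ⬝ᵥ w = v 0 * w 0 + v 1 * w 1 + v 2 * w 2 + v 3 * w 3 + v 4 * w 4
    + v 5 * w 5 + v 6 * w 6 + v 7 * w 7 + v 8 * w 8 + v 9 * w 9 := by
  rw [dotProduct, Fin.sum_univ_castSucc, Fin.sum_univ_castSucc, Fin.sum_univ_eight]
  rfl

/-- Symmetry of the form for real parameters. -/
lemma kv_symm (c : Fin 12 → ℝ) (z w : Fin 10 → ℂ) :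
    star (kv (fun k => (c k : ℂ)) w) ⬝ᵥ z = star w ⬝ᵥ kv (fun k => (c k : ℂ)) z := by
  rw [dot10, dot10]
  simp [kv]
  ring

lemma km_hermitian (c : Fin 12 → ℝ) : (km (fun k => (c k : ℂ))).IsHermitian := by
  rw [Matrix.IsHermitian]
  apply mat_ext
  intro v
  ext i
  have h := kv_symm c v (Pi.single i 1)
  rw [← km_mulVec, ← km_mulVec, Matrix.star_mulVec, ← Matrix.dotProduct_mulVec] at h
  have e : star (Pi.single i (1 : ℂ) : Fin 10 → ℂ) = Pi.single i 1 := by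
    ext j
    by_cases hj : j = i
    · subst hj; simp
    · simp [Pi.single_eq_of_ne hj]
  rw [e] at h
  simpa using h

end Pool.Agent.Helper72.TJ
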