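import Pool.Agent.Helper72.TJ.Quad

set_option autoImplicit false

open Complex Matrix Filter Topology
open scoped Matrix.Norms.L2Operator

namespace Pool.Agent.Helper72.TJ

lemma uniq_small {R : Type*} [NormedRing R] {P A Ai Q X Y : R} (hi : Ai * A = 1)
    (hX : P * X ^ 2 + A * X + Q = 0) (hY : P * Y ^ 2 + A * Y + Q = 0) (h1 : ‖X‖ < 1) (h2 : ‖Y‖ < 1)
    (hE : ‖Ai * P‖ ≤ 1 / 2) : Y = X := by
  by_contra hne
  have h3 : 0 < ‖Y - X‖ := norm_pos_iff.2 (sub_ne_zero.2 hne)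
  have h4 : Y - X = -(Ai * P * (Y * (Y - X) + (Y - X) * X)) := by
    have h5 : A * (Y - X) = -(P * (Y ^ 2 - X ^ 2)) := by
      have e : A * (Y - X) + P * (Y ^ 2 - X ^ 2) =
        (P * Y ^ 2 + A * Y + Q) - (P * X ^ 2 + A * X + Q) := by noncomm_ring
      rw [hX, hY, sub_self] at e
      exact eq_neg_of_add_eq_zero_left e
    calc Y - X = Ai * A * (Y - X) := by rw [hi, one_mul]
      _ = Ai * (A * (Y - X)) := mul_assoc _ _ _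
      _ = -(Ai * P * (Y * (Y - X) + (Y - X) * X)) := by
        rw [h5]
        noncomm_ring
  have h6 : ‖Y - X‖ ≤ 1 / 2 * (‖Y‖ * ‖Y - X‖ + ‖Y - X‖ * ‖X‖) := by
    conv_lhs => rw [h4]
    rw [norm_neg]
    calc ‖Ai * P * (Y * (Y - X) + (Y - X) * X)‖ ≤ ‖Ai * P‖ * ‖Y * (Y - X) + (Y - X) * X‖ :=
          norm_mul_le _ _
      _ ≤ 1 / 2 * (‖Y‖ * ‖Y - X‖ + ‖Y - X‖ * ‖X‖) := by
        gcongr
        exact (norm_add_le _ _).trans (add_le_add (norm_mul_le _ _) (norm_mul_le _ _))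
  nlinarith

lemma ev_xm : ∀ᶠ t : ℝ in 𝓝 0, ‖xm (t : ℂ)‖ < 1 := by
  have hc : Continuous fun t : ℝ => ‖xm (t : ℂ)‖ := by
    unfold xm
    fun_prop
  have h0 : ‖xm ((0 : ℝ) : ℂ)‖ < 1 := by simp [xm]
  exact hc.continuousAt.eventually_lt continuousAt_const h0

lemma ev_ai : ∀ᶠ t : ℝ in 𝓝 0, ‖ai (t : ℂ) * ((t : ℂ) • pm)‖ < 1 / 2 := by
  have hc : Continuous fun t : ℝ => ‖ai (t : ℂ) * ((t : ℂ) • pm)‖ := by
    unfold ai
    fun_prop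
  have h0 : ‖ai ((0 : ℝ) : ℂ) * (((0 : ℝ) : ℂ) • pm)‖ < 1 / 2 := by simp
  exact hc.continuousAt.eventually_lt continuousAt_const h0

lemma gterm_eq {n : ℕ} {A C Ai X : Matrix (Fin n) (Fin n) ℂ} (hA : A.IsHermitian)
    (V : Fin n → ℂ) (r : ℕ) :
    star V ⬝ᵥ (Xᴴ ^ r * A * Ai * C * X ^ r) *ᵥ V =
      star (A *ᵥ (X ^ r *ᵥ V)) ⬝ᵥ Ai *ᵥ (C *ᵥ (X ^ r *ᵥ V)) := by
  rw [Matrix.star_mulVec, Matrix.star_mulVec, hA.eq, Matrix.conjTranspose_pow,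
    Matrix.mulVec_mulVec, Matrix.mulVec_mulVec, Matrix.vecMul_vecMul, ← Matrix.dotProduct_mulVec,
    Matrix.mulVec_mulVec]
  simp only [mul_assoc]

lemma gquad {n d : ℕ} (A : Fin d → Matrix (Fin n) (Fin n) ℂ) (Ai : Matrix (Fin n) (Fin n) ℂ)
    (u : Fin n → ℂ) (x : Fin d → ℝ) :
    ∑ j, x j * ∑ s, (star (A j *ᵥ u) ⬝ᵥ Ai *ᵥ (A s *ᵥ u)).re * x s =
      (star ((∑ j, (x j : ℂ) • A j) *ᵥ u) ⬝ᵥ Ai *ᵥ ((∑ j, (x j : ℂ) • A j) *ᵥ u)).re := by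
  rw [Matrix.sum_mulVec, star_sum, sum_dotProduct, Complex.re_sum]
  refine Finset.sum_congr rfl fun j _ => ?_
  rw [Matrix.mulVec_sum, dotProduct_sum, Complex.re_sum, Finset.mul_sum]
  refine Finset.sum_congr rfl fun s _ => ?_
  rw [Matrix.smul_mulVec, Matrix.smul_mulVec, star_smul, Matrix.mulVec_smul, smul_dotProduct,
    dotProduct_smul]
  simp only [smul_eq_mul, Complex.star_def, Complex.conj_ofReal, Complex.re_ofReal_mul]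
  ring

end Pool.Agent.Helper72.TJ
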