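import Pool.Agent.Helper72.TJ.Alg

set_option autoImplicit false

open Complex Matrix

namespace Pool.Agent.Helper72.TJ

noncomputable def av (t : ℂ) (v : Fin 10 → ℂ) : Fin 10 → ℂ :=
  bv v + (2 * t) • nv (bv v) + (4 * t ^ 2) • nv (nv (bv v))

lemma ai_mulVec (t : ℂ) (v : Fin 10 → ℂ) : ai t *ᵥ v = av t v := by
  rw [ai, ← Matrix.mulVec_mulVec, bm_mulVec, Matrix.add_mulVec, Matrix.add_mulVec,
    Matrix.one_mulVec, Matrix.smul_mulVec, Matrix.smul_mulVec, ← Matrix.mulVec_mulVec, nm_mulVec,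
    nm_mulVec, av]

lemma av_eq (t : ℂ) (v : Fin 10 → ℂ) : av t v =
    ![v 6 + 2 * t * v 3 + 4 * t ^ 2 * (-(I * v 8) + v 0),
      v 7 + 2 * t * v 4 + 4 * t ^ 2 * v 1,
      v 8 + 2 * t * v 5 + 4 * t ^ 2 * (-(I * v 6) + v 2),
      v 3 + 2 * t * (-(I * v 8) + v 0),
      v 4 + 2 * t * v 1,
      v 5 + 2 * t * (-(I * v 6) + v 2),
      v 0 + 2 * t * (I * v 5) + 4 * t ^ 2 * (I * (-(I * v 6) + v 2)),
      v 1,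
      v 2 + 2 * t * (I * v 3) + 4 * t ^ 2 * (I * (-(I * v 8) + v 0)),
      v 9] := by
  ext i
  fin_cases i <;> simp [av, bv, nv]

lemma form_eq (t : ℝ) (v : Fin 10 → ℂ) : (star v ⬝ᵥ av t v).re =
    2 * ((v 0).re * (v 6).re + (v 0).im * (v 6).im + (v 1).re * (v 7).re + (v 1).im * (v 7).im +
      (v 2).re * (v 8).re + (v 2).im * (v 8).im) +
    ((v 3).re + 2 * t * ((v 8).im + (v 0).re)) ^ 2 +
    ((v 3).im + 2 * t * (-(v 8).re + (v 0).im)) ^ 2 +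
    ((v 4).re + 2 * t * (v 1).re) ^ 2 + ((v 4).im + 2 * t * (v 1).im) ^ 2 +
    ((v 5).re + 2 * t * ((v 6).im + (v 2).re)) ^ 2 +
    ((v 5).im + 2 * t * (-(v 6).re + (v 2).im)) ^ 2 +
    (v 9).re ^ 2 + (v 9).im ^ 2 := by
  rw [dot10, av_eq]
  have h2 : ((t : ℂ) ^ 2).re = t ^ 2 := by rw [← Complex.ofReal_pow]; exact Complex.ofReal_re _
  have h3 : ((t : ℂ) ^ 2).im = 0 := by rw [← Complex.ofReal_pow]; exact Complex.ofReal_im _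
  simp [h2, h3]
  ring

/-- The vector `V`. -/
def vv : Fin 10 → ℂ := ![1, 0, 0, 0, 1, 0, 2, 0, 0, 2]

noncomputable def v1 (t : ℂ) : Fin 10 → ℂ :=
  ![-(4 * t ^ 2), -t, 2 * t ^ 2 * I, -(2 * t), 0, t * I, -(2 * t ^ 2), 0, -(4 * t ^ 2 * I), 0]

noncomputable def v2 (t : ℂ) : Fin 10 → ℂ :=
  ![2 * t ^ 2, 0, -(t ^ 2 * I), 0, 0, 0, t ^ 2, 0, 2 * t ^ 2 * I, 0]

lemma xm_vv (t : ℂ) : xm t *ᵥ vv = v1 t := by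
  rw [xm, Matrix.neg_mulVec, Matrix.add_mulVec, Matrix.smul_mulVec, Matrix.smul_mulVec,
    ← Matrix.mulVec_mulVec, nm_mulVec, nm_mulVec]
  ext i
  fin_cases i <;> simp [vv, nv, v1] <;> ring

lemma xm_xm_vv (t : ℂ) : (xm t * xm t) *ᵥ vv = v2 t := by
  rw [xm_sq, Matrix.smul_mulVec, ← Matrix.mulVec_mulVec, nm_mulVec, nm_mulVec]
  ext i
  fin_cases i <;> simp [vv, nv, v2]
  all_goals ring

/-- The value of the quadratic form as an explicit sum of squares. -/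
noncomputable def sos (t : ℝ) (c : Fin 12 → ℝ) : ℝ :=
  (c 10 + t ^ 2 * (c 7 - 2 * c 4)) ^ 2 + 2 * (c 10 + c 4 / 2) ^ 2 + c 10 ^ 2 + c 4 ^ 2 / 4 +
    (c 4 / 2 + 2 * c 9) ^ 2 + c 9 ^ 2 +
    ((2 * c 11 + 2 * t * (c 4 + 2 * c 10)) ^ 2 + (-c 0 + 2 * t * c 3) ^ 2 +
      (-c 3 + 2 * t * c 1) ^ 2 + (c 6 - 2 * t * c 8) ^ 2 + (-c 5 + 2 * t * (c 7 - c 10)) ^ 2) +
    t ^ 2 * ((c 4 - 2 * c 9) ^ 2 + c 3 ^ 2 + c 1 ^ 2 + c 8 ^ 2 + (c 7 + c 9) ^ 2) +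
    t ^ 4 * (5 * (c 11 - c 5) ^ 2 + (2 * c 0 - c 6) ^ 2 + (2 * c 3 - c 8) ^ 2 +
      (2 * c 6 - c 2) ^ 2)

lemma quad0 (t : ℝ) (c : Fin 12 → ℝ) :
    (star (kv (fun k => (c k : ℂ)) vv) ⬝ᵥ av t (kv (fun k => (c k : ℂ)) vv)).re =
    4 * c 10 ^ 2 + 2 * c 10 * c 4 + 4 * c 9 ^ 2 +
    ((2 * c 11 + 2 * t * (c 4 + 2 * c 10)) ^ 2 + (-c 0 + 2 * t * c 3) ^ 2 + (c 4 + c 9) ^ 2 +
      (-c 3 + 2 * t * c 1) ^ 2 + (c 6 - 2 * t * c 8) ^ 2 + (-c 5 + 2 * t * (c 7 - c 10)) ^ 2) := by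
  rw [form_eq]
  simp [kv, vv]
  ring

lemma re_sq (t : ℝ) : ((t : ℂ) ^ 2).re = t ^ 2 := by
  rw [← Complex.ofReal_pow]; exact Complex.ofReal_re _

lemma im_sq (t : ℝ) : ((t : ℂ) ^ 2).im = 0 := by
  rw [← Complex.ofReal_pow]; exact Complex.ofReal_im _

lemma quad1 (t : ℝ) (c : Fin 12 → ℝ) :
    (star (kv (fun k => (c k : ℂ)) (v1 t)) ⬝ᵥ av t (kv (fun k => (c k : ℂ)) (v1 t))).re =
    2 * t ^ 2 * c 10 * (c 7 - 2 * c 4) +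
    t ^ 2 * ((c 4 - 2 * c 9) ^ 2 + c 3 ^ 2 + c 1 ^ 2 + c 8 ^ 2 + (c 7 + c 9) ^ 2) := by
  rw [form_eq]
  simp [kv, v1, re_sq, im_sq]
  ring

lemma quad2 (t : ℝ) (c : Fin 12 → ℝ) :
    (star (kv (fun k => (c k : ℂ)) (v2 t)) ⬝ᵥ av t (kv (fun k => (c k : ℂ)) (v2 t))).re =
    t ^ 4 * (5 * (c 11 - c 5) ^ 2 + (2 * c 0 - c 6) ^ 2 + (2 * c 4 - c 7) ^ 2 +
      (2 * c 3 - c 8) ^ 2 + (2 * c 6 - c 2) ^ 2) := by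
  rw [form_eq]
  simp [kv, v2, re_sq, im_sq]
  ring

lemma quad_sum (t : ℝ) (c : Fin 12 → ℝ) :
    (star (kv (fun k => (c k : ℂ)) vv) ⬝ᵥ av t (kv (fun k => (c k : ℂ)) vv)).re +
    (star (kv (fun k => (c k : ℂ)) (v1 t)) ⬝ᵥ av t (kv (fun k => (c k : ℂ)) (v1 t))).re +
    (star (kv (fun k => (c k : ℂ)) (v2 t)) ⬝ᵥ av t (kv (fun k => (c k : ℂ)) (v2 t))).re =
    sos t c := by
  rw [quad0, quad1, quad2, sos]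
  ring

private lemma grp5 (a b c d e : ℝ) (ha : 0 ≤ a) (hb : 0 ≤ b) (hc : 0 ≤ c) (hd : 0 ≤ d)
    (he : 0 ≤ e) (h : a + b + c + d + e = 0) : a = 0 ∧ b = 0 ∧ c = 0 ∧ d = 0 ∧ e = 0 := by
  refine ⟨?_, ?_, ?_, ?_, ?_⟩ <;> linarith

private lemma grp8 (a b c d e f g h k : ℝ) (ha : 0 ≤ a) (hb : 0 ≤ b) (hc : 0 ≤ c) (hd : 0 ≤ d)
    (he : 0 ≤ e) (hf : 0 ≤ f) (hg : 0 ≤ g) (hh : 0 ≤ h) (hk : 0 ≤ k)
    (hs : a + 2 * b + c + d / 4 + e + f + g + h + k ≤ 0) :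
    c = 0 ∧ d = 0 ∧ f = 0 ∧ g = 0 ∧ h = 0 ∧ k = 0 := by
  refine ⟨?_, ?_, ?_, ?_, ?_, ?_⟩ <;> linarith

private lemma sqz {a : ℝ} (h : a ^ 2 = 0) : a = 0 := by
  exact pow_eq_zero_iff (two_ne_zero) |>.1 h

private lemma sos_zero (t x0 x1 x2 x3 x4 x5 x6 x7 x8 x9 x10 x11 : ℝ) (ht : t ≠ 0)
    (h : (x10 + t ^ 2 * (x7 - 2 * x4)) ^ 2 + 2 * (x10 + x4 / 2) ^ 2 + x10 ^ 2 + x4 ^ 2 / 4 +
    (x4 / 2 + 2 * x9) ^ 2 + x9 ^ 2 +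
    ((2 * x11 + 2 * t * (x4 + 2 * x10)) ^ 2 + (-x0 + 2 * t * x3) ^ 2 +
      (-x3 + 2 * t * x1) ^ 2 + (x6 - 2 * t * x8) ^ 2 + (-x5 + 2 * t * (x7 - x10)) ^ 2) +
    t ^ 2 * ((x4 - 2 * x9) ^ 2 + x3 ^ 2 + x1 ^ 2 + x8 ^ 2 + (x7 + x9) ^ 2) +
    t ^ 4 * (5 * (x11 - x5) ^ 2 + (2 * x0 - x6) ^ 2 + (2 * x3 - x8) ^ 2 +
      (2 * x6 - x2) ^ 2) ≤ 0) :
    (x0 = 0 ∧ x1 = 0 ∧ x2 = 0 ∧ x3 = 0 ∧ x4 = 0 ∧ x5 = 0) ∧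
    (x6 = 0 ∧ x7 = 0 ∧ x8 = 0 ∧ x9 = 0 ∧ x10 = 0 ∧ x11 = 0) := by
  have ht2 : 0 < t ^ 2 := by positivity
  have ht4 : 0 < t ^ 4 := by positivity
  obtain ⟨r10, r4, r9, z4, z1, z2⟩ := grp8 _ _ _ _ _ _ _ _ _ (sq_nonneg _) (sq_nonneg _)
    (sq_nonneg _) (sq_nonneg _) (sq_nonneg _) (sq_nonneg _) (by positivity) (by positivity)
    (by positivity) h
  have w1 := (mul_eq_zero.1 z1).resolve_left ht2.ne'
  have w2 := (mul_eq_zero.1 z2).resolve_left ht4.ne'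
  obtain ⟨k4, k5, k6, k7, k8⟩ := grp5 _ _ _ _ _ (sq_nonneg _) (sq_nonneg _)
    (sq_nonneg _) (sq_nonneg _) (sq_nonneg _) z4
  obtain ⟨l1, l2, l3, l4, l5⟩ := grp5 _ _ _ _ _ (sq_nonneg _) (sq_nonneg _)
    (sq_nonneg _) (sq_nonneg _) (sq_nonneg _) w1
  have w2' : 5 * (x11 - x5) ^ 2 + (2 * x0 - x6) ^ 2 + (2 * x3 - x8) ^ 2 +
      (2 * x6 - x2) ^ 2 + 0 = 0 := by rw [add_zero]; exact w2
  obtain ⟨m1, m2, m3, m4, -⟩ := grp5 _ _ _ _ _ (by positivity) (sq_nonneg _)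
    (sq_nonneg _) (sq_nonneg _) le_rfl w2'
  have h10 := sqz r10
  have h4 := sqz r4
  have h9 := sqz r9
  have h3 := sqz l2
  have h1 := sqz l3
  have h8 := sqz l4
  have h7' := sqz l5
  have e4 := sqz k4
  have e5 := sqz k5
  have e7 := sqz k7
  have e8 := sqz k8
  have e14 := sqz m4
  have h7 : x7 = 0 := by linarith
  subst h10 h4 h9 h3 h1 h8 h7
  have h11 : x11 = 0 := by linarith
  have h0 : x0 = 0 := by linarith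
  have h6 : x6 = 0 := by linarith
  have h5 : x5 = 0 := by linarith
  have h2 : x2 = 0 := by linarith
  exact ⟨⟨h0, rfl, h2, rfl, rfl, h5⟩, ⟨h6, rfl, rfl, rfl, rfl, h11⟩⟩

lemma sos_pos (t : ℝ) (ht : t ≠ 0) (c : Fin 12 → ℝ) (hc : c ≠ 0) : 0 < sos t c := by
  by_contra hneg
  push Not at hneg
  apply hc
  obtain ⟨⟨h0, h1, h2, h3, h4, h5⟩, ⟨h6, h7, h8, h9, h10, h11⟩⟩ :=
    sos_zero t (c 0) (c 1) (c 2) (c 3) (c 4) (c 5) (c 6) (c 7) (c 8) (c 9) (c 10) (c 11) ht hneg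
  ext i
  fin_cases i
  · exact h0
  · exact h1
  · exact h2
  · exact h3
  · exact h4
  · exact h5
  · exact h6
  · exact h7
  · exact h8
  · exact h9
  · exact h10
  · exact h11

end Pool.Agent.Helper72.TJ
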