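import Pool.Agent.Helper72.TJ.Map

set_option autoImplicit false

open Complex Matrix Filter Topology

namespace Pool.Agent.Helper72.TJ

/-- The entries `i (yₐ X_b - xₐ Y_b)`. -/
noncomputable def qm (x y X Y : Fin 3 → ℂ) (a b : Fin 3) : ℂ := I * (y a * X b - x a * Y b)

lemma det_id (W V : Fin 3 → Fin 3 → ℂ) (x y X Y : Fin 3 → ℂ)
    (h : ∀ a b, V a b = 2 * qm x y X Y a b - W a b) :
    det3 W + det3 V = 2 * I * ((X 0 * adjv W y 0 + X 1 * adjv W y 1 + X 2 * adjv W y 2) -
      (Y 0 * adjv V x 0 + Y 1 * adjv V x 1 + Y 2 * adjv V x 2)) := by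
  simp only [det3, adjv, h, qm]
  simp
  ring

lemma adj_id (W V : Fin 3 → Fin 3 → ℂ) (x y X Y : Fin 3 → ℂ)
    (h : ∀ a b, V a b = 2 * qm x y X Y a b - W a b) :
    Y 0 * adjv W y 0 + Y 1 * adjv W y 1 + Y 2 * adjv W y 2 =
      Y 0 * adjv V y 0 + Y 1 * adjv V y 1 + Y 2 * adjv V y 2 := by
  simp only [adjv, h, qm]
  simp
  ring

/-- The values of the twelve forms. -/
noncomputable def hv (z : Fin 10 → ℂ) : Fin 12 → ℂ :=
  ![I * (star (z 0) * z 3 - star (z 3) * z 0),
    I * (star (z 1) * z 4 - star (z 4) * z 1),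
    I * (star (z 2) * z 5 - star (z 5) * z 2),
    I * (star (z 0) * z 4 + star (z 1) * z 3 - star (z 3) * z 1 - star (z 4) * z 0),
    star (z 0) * z 4 - star (z 1) * z 3 - star (z 3) * z 1 + star (z 4) * z 0,
    I * (star (z 0) * z 5 + star (z 2) * z 3 - star (z 3) * z 2 - star (z 5) * z 0),
    star (z 0) * z 5 - star (z 2) * z 3 - star (z 3) * z 2 + star (z 5) * z 0,
    I * (star (z 1) * z 5 + star (z 2) * z 4 - star (z 4) * z 2 - star (z 5) * z 1),
    star (z 1) * z 5 - star (z 2) * z 4 - star (z 4) * z 2 + star (z 5) * z 1,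
    star (z 3) * z 3 + star (z 4) * z 4 + star (z 5) * z 5 + star (z 9) * z 9,
    star (z 0) * z 6 + star (z 1) * z 7 + star (z 2) * z 8 +
      (star (z 6) * z 0 + star (z 7) * z 1 + star (z 8) * z 2),
    star (z 3) * z 6 + star (z 4) * z 7 + star (z 5) * z 8 +
      (star (z 6) * z 3 + star (z 7) * z 4 + star (z 8) * z 5)]

lemma hv_eq (j : Fin 12) (z : Fin 10 → ℂ) : star z ⬝ᵥ am j *ᵥ z = hv z j := by
  rw [am, km_mulVec, dot10]
  fin_cases j <;> simp [kv, hv] <;> ring_nf <;> simp <;> ring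

lemma star_w {w h : ℂ} (h1 : w.re = h.re) (h2 : star h = h) : star w = 2 * h - w := by
  have h3 : h.im = 0 := by
    have := congrArg Complex.im h2
    simp at this
    linarith
  apply Complex.ext
  · simp
    linarith
  · simp [h3]

lemma star_hv (z : Fin 10 → ℂ) (j : Fin 12) : star (hv z j) = hv z j := by
  fin_cases j <;> simp [hv] <;> ring

/-- The conjugate transpose. -/
def vm (W : Fin 3 → Fin 3 → ℂ) (a b : Fin 3) : ℂ := star (W b a)

lemma det3_vm (W : Fin 3 → Fin 3 → ℂ) : det3 (vm W) = star (det3 W) := by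
  simp [det3, vm]
  ring

lemma adjv_vm (W : Fin 3 → Fin 3 → ℂ) (x y : Fin 3 → ℂ) :
    star (y 0) * adjv (vm W) x 0 + star (y 1) * adjv (vm W) x 1 + star (y 2) * adjv (vm W) x 2 =
    star (star (x 0) * adjv W y 0 + star (x 1) * adjv W y 1 + star (x 2) * adjv W y 2) := by
  simp [adjv, vm]
  ring

lemma vm_wm (z : Fin 10 → ℂ) (w : Fin 12 → ℂ) (h : ∀ j, (w j).re = (hv z j).re) (a b : Fin 3) :
    vm (wm w) a b = 2 * qm ![z 0, z 1, z 2] ![z 3, z 4, z 5] ![star (z 0), star (z 1), star (z 2)]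
      ![star (z 3), star (z 4), star (z 5)] a b - wm w a b := by
  have h0 := star_w (h 0) (star_hv z 0)
  have h1 := star_w (h 1) (star_hv z 1)
  have h2 := star_w (h 2) (star_hv z 2)
  have h3 := star_w (h 3) (star_hv z 3)
  have h4 := star_w (h 4) (star_hv z 4)
  have h5 := star_w (h 5) (star_hv z 5)
  have h6 := star_w (h 6) (star_hv z 6)
  have h7 := star_w (h 7) (star_hv z 7)
  have h8 := star_w (h 8) (star_hv z 8)
  simp only [Complex.star_def] at *
  fin_cases a <;> fin_cases b <;> simp [vm, wm, qm, h0, h1, h2, h3, h4, h5, h6, h7, h8, hv] <;> ring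

lemma re_det {W : Fin 3 → Fin 3 → ℂ} {x y : Fin 3 → ℂ}
    (h : ∀ a b, vm W a b = 2 * qm x y (fun i => star (x i)) (fun i => star (y i)) a b - W a b) :
    (det3 W).re = 2 * (I * (star (x 0) * adjv W y 0 + star (x 1) * adjv W y 1 +
      star (x 2) * adjv W y 2)).re := by
  have h1 := det_id W (vm W) x y _ _ h
  rw [det3_vm, adjv_vm] at h1
  have h2 := congrArg Complex.re h1
  simp only [Complex.star_def, Complex.add_re, Complex.conj_re, Complex.sub_conj] at h2
  simp at h2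
  simp
  linarith

lemma re_adj {W : Fin 3 → Fin 3 → ℂ} {x y : Fin 3 → ℂ}
    (h : ∀ a b, vm W a b = 2 * qm x y (fun i => star (x i)) (fun i => star (y i)) a b - W a b) :
    (I * (star (y 0) * adjv W y 0 + star (y 1) * adjv W y 1 +
      star (y 2) * adjv W y 2)).re = 0 := by
  have h1 := adj_id W (vm W) x y _ _ h
  rw [adjv_vm] at h1
  have h2 := congrArg Complex.im h1
  simp only [Complex.star_def, Complex.conj_im] at h2
  rw [Complex.I_mul_re]
  simp only [Complex.star_def]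
  linarith

lemma fmap_fst (p : Sp) (i : Fin 10) (h6 : i ≠ 6) (h7 : i ≠ 7) (h8 : i ≠ 8) :
    (fmap p).1 i = p.1 i := by
  simp [fmap, pert_fst p i h6 h7 h8]

lemma fmap_snd (p : Sp) (i : Fin 12) (h : i ≠ 10) : (fmap p).2 i = p.2 i := by
  simp [fmap, pert_snd p i h]

lemma hv_congr (z z' : Fin 10 → ℂ) (e0 : z 0 = z' 0) (e1 : z 1 = z' 1) (e2 : z 2 = z' 2)
    (e3 : z 3 = z' 3) (e4 : z 4 = z' 4) (e5 : z 5 = z' 5) (e9 : z 9 = z' 9) (j : Fin 12)
    (h10 : j ≠ 10) (h11 : j ≠ 11) : hv z j = hv z' j := by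
  fin_cases j
  · simp only [hv, e0, e3]; simp
  · simp only [hv, e1, e4]; simp
  · simp only [hv, e2, e5]; simp
  · simp only [hv, e0, e1, e3, e4]; simp
  · simp only [hv, e0, e1, e3, e4]; simp
  · simp only [hv, e0, e2, e3, e5]; simp
  · simp only [hv, e0, e2, e3, e5]; simp
  · simp only [hv, e1, e2, e4, e5]; simp
  · simp only [hv, e1, e2, e4, e5]; simp
  · simp only [hv, e3, e4, e5, e9]; simp
  · exact absurd rfl h10
  · exact absurd rfl h11

lemma fmap_mem (p : Sp) (hp : ∀ j, (p.2 j).re = (hv p.1 j).re) (j : Fin 12) :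
    ((fmap p).2 j).re = (hv (fmap p).1 j).re := by
  obtain ⟨z, w⟩ := p
  have e0 := fmap_fst (z, w) 0 (by decide) (by decide) (by decide)
  have e1 := fmap_fst (z, w) 1 (by decide) (by decide) (by decide)
  have e2 := fmap_fst (z, w) 2 (by decide) (by decide) (by decide)
  have e3 := fmap_fst (z, w) 3 (by decide) (by decide) (by decide)
  have e4 := fmap_fst (z, w) 4 (by decide) (by decide) (by decide)
  have e5 := fmap_fst (z, w) 5 (by decide) (by decide) (by decide)
  have e9 := fmap_fst (z, w) 9 (by decide) (by decide) (by decide)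
  have e6 : (fmap (z, w)).1 6 = z 6 + I * adjv (wm w) ![z 3, z 4, z 5] 0 := rfl
  have e7 : (fmap (z, w)).1 7 = z 7 + I * adjv (wm w) ![z 3, z 4, z 5] 1 := rfl
  have e8 : (fmap (z, w)).1 8 = z 8 + I * adjv (wm w) ![z 3, z 4, z 5] 2 := rfl
  have hvm : ∀ a b, vm (wm w) a b = 2 * qm ![z 0, z 1, z 2] ![z 3, z 4, z 5]
      (fun i => star ((![z 0, z 1, z 2] : Fin 3 → ℂ) i))
      (fun i => star ((![z 3, z 4, z 5] : Fin 3 → ℂ) i)) a b - wm w a b := by
    intro a b
    rw [vm_wm z w hp a b]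
    fin_cases a <;> fin_cases b <;> simp [qm]
  have k10 := re_det hvm
  have k11 := re_adj hvm
  have hp10 := hp 10
  have hp11 := hp 11
  by_cases h10 : j = 10
  · subst h10
    have f10 : (fmap (z, w)).2 10 = w 10 + det3 (wm w) := rfl
    rw [f10, Complex.add_re, hp10, k10]
    simp only [hv, e0, e1, e2, e3, e4, e5, e6, e7, e8, e9]
    simp
    ring
  · rw [fmap_snd _ _ h10, hp j]
    by_cases h11 : j = 11
    · subst h11
      simp only [hv, e0, e1, e2, e3, e4, e5, e6, e7, e8, e9]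
      simp at k11
      simp
      linarith
    · rw [hv_congr z (fmap (z, w)).1 e0.symm e1.symm e2.symm e3.symm e4.symm e5.symm e9.symm j
        h10 h11]

end Pool.Agent.Helper72.TJ
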